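import Pool.Agent.Lib.MP_c5d73d_lc.F.Iter

/-!
# Module ITCCC: the finite support iteration is ccc at every stage
-/

universe u

open Cardinal Filter

namespace Pool.Agent.Lib.MP_c5d73d_lc.F.H40

open Pool.Agent.Lib.MP_c5d73d_lc.F

variable {I : Type u} [LinearOrder I] [WellFoundedLT I]

/-- Change the value of a condition at one coordinate. -/
noncomputable def upd {z : I} {g : I → NameI I} (p : Cnd z g) (b s : I) (hs : s ∈ (g b).C) :
    Cnd z g :=
  ⟨fun i => by classical exact if i = b then s else p.1 i, by
    classical
    refine ⟨(p.2.1.union (Set.finite_singleton b)).subset fun i hi => ?_, fun i => ?_⟩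
    · by_cases h : i = b
      · right; exact h
      · left
        simpa [h] using hi
    · by_cases h : i = b
      · subst h; simpa using hs
      · simpa [h] using p.2.2 i⟩

theorem upd_self {z : I} {g : I → NameI I} (p : Cnd z g) (b s : I) (hs : s ∈ (g b).C) :
    (upd p b s hs).1 b = s := by simp [upd]

theorem upd_ne {z : I} {g : I → NameI I} (p : Cnd z g) (b s : I) (hs : s ∈ (g b).C) (i : I)
    (h : i ≠ b) : (upd p b s hs).1 i = p.1 i := by simp [upd, h]

/-- The union of two conditions from `b` on, `q` below `b`. -/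
noncomputable def amal {z : I} {g : I → NameI I} (b : I) (q x y : Cnd z g) : Cnd z g :=
  ⟨fun i => by classical exact if i < b then q.1 i else if x.1 i ≠ z then x.1 i else y.1 i, by
    classical
    refine ⟨((q.2.1.union x.2.1).union y.2.1).subset fun i hi => ?_, fun i => ?_⟩
    · simp only [Set.mem_setOf_eq] at hi
      by_cases h : i < b
      · rw [if_pos h] at hi
        exact Or.inl (Or.inl hi)
      · rw [if_neg h] at hi
        by_cases h2 : x.1 i ≠ z
        · exact Or.inl (Or.inr h2)
        · rw [if_neg h2] at hi
          exact Or.inr hi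
    · by_cases h : i < b
      · simpa [h] using q.2.2 i
      · by_cases h2 : x.1 i ≠ z
        · simpa [h, h2] using x.2.2 i
        · simp only [h, h2, if_false]
          exact y.2.2 i⟩

theorem amal_lt {z : I} {g : I → NameI I} (b : I) (q x y : Cnd z g) (i : I) (h : i < b) :
    (amal b q x y).1 i = q.1 i := by simp [amal, h]

theorem amal_left {z : I} {g : I → NameI I} (b : I) (q x y : Cnd z g) (i : I) (h : ¬ i < b)
    (h2 : x.1 i ≠ z) : (amal b q x y).1 i = x.1 i := by simp [amal, h, h2]

theorem amal_right {z : I} {g : I → NameI I} (b : I) (q x y : Cnd z g) (i : I) (h : ¬ i < b)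
    (h2 : x.1 i = z) : (amal b q x y).1 i = y.1 i := by simp [amal, h, h2]

theorem stp_refl {P : Type u} {R : P → P → Prop} {C : Set I} {z : I} {N : I → I → Set P}
    (p : P) (u : I) (hu : u ∈ C) : Stp R C z N p u u := fun hv => hv.refl p u hu

theorem stp_top {P : Type u} {R : P → P → Prop} {C : Set I} {z : I} {N : I → I → Set P}
    (p : P) (u : I) (hu : u ∈ C) : Stp R C z N p u z := fun hv => hv.top p u hu

theorem itccc (hO : OrdiStatement.{u}) (hD : DeltaStatement.{u}) : ItcccStatement.{u} := by
  classical
  intro I _ _ z g hz a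
  obtain ⟨-, -, hcongr, -, -⟩ := hO I z g hz
  induction a using WellFoundedLT.induction with
  | ind a IH =>
  by_cases hA : ∃ b : I, (b : WithTop I) < a ∧ ∀ c : I, (c : WithTop I) < a → c ≤ b
  · -- successor stage
    obtain ⟨b, hba, hb⟩ := hA
    intro T f hf
    by_cases hV : Valid (RL z g b) (g b).C z (nmAt z g b)
    · refine hV.ccc T f (fun t => (f t).1 b) (fun t => (f t).2.2 b) ?_
      rintro t t' htt' ⟨p, s, hs, h1, h2, h3, h4⟩
      apply hf t t' htt'
      have key : ∀ x : Cnd z g, RL z g b p x → Frc (RL z g b) (nmAt z g b s (x.1 b)) p →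
          RS z g a (upd p b s hs) x := by
        intro x hx1 hx2 β hβ
        rcases (hb β hβ).lt_or_eq with hlt | heq
        · have h5 : RS z g (b : WithTop I) p x := by rw [RS_coe]; exact hx1
          have h6 : RS z g (b : WithTop I) (upd p b s hs) x := by
            refine hcongr (b : WithTop I) p (upd p b s hs) x x (fun γ hγ => ⟨?_, rfl⟩) h5
            rw [upd_ne]
            exact (WithTop.coe_lt_coe.1 hγ).ne
          exact h6 β (WithTop.coe_lt_coe.2 hlt)
        · subst heq
          intro _ p' hp'
          rw [upd_self]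
          refine hx2 p' ?_
          rw [← RS_coe] at hp' ⊢
          refine hcongr _ p' p' (upd p β s hs) p (fun γ hγ => ⟨rfl, ?_⟩) hp'
          rw [upd_ne]
          exact (WithTop.coe_lt_coe.1 hγ).ne
      exact ⟨upd p b s hs, key _ h1 h3, key _ h2 h4⟩
    · refine IH (b : WithTop I) hba T f fun t t' htt' => ?_
      rintro ⟨p, h1, h2⟩
      apply hf t t' htt'
      have key : ∀ x : Cnd z g, RS z g (b : WithTop I) p x → RS z g a p x := by
        intro x hx β hβ
        rcases (hb β hβ).lt_or_eq with hlt | heq
        · exact hx β (WithTop.coe_lt_coe.2 hlt)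
        · subst heq
          intro hV'
          exact absurd hV' hV
      exact ⟨p, key _ h1, key _ h2⟩
  · by_cases hne : ∃ b : I, (b : WithTop I) < a
    · -- limit stage
      obtain ⟨b₀, hb₀⟩ := hne
      push Not at hA
      intro T f hf
      by_contra hT
      rw [not_le] at hT
      have hfin : ∀ t, {i | (f t).1 i ≠ z ∧ (i : WithTop I) < a}.Finite := fun t =>
        (f t).2.1.subset fun i hi => hi.1
      obtain ⟨S, r, hS, hr⟩ := hD T I (fun t => (hfin t).toFinset) hT
      simp only [Set.Finite.coe_toFinset] at hr
      -- the root is finite and below `a`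
      have hS2 : ∃ s ∈ S, ∃ t ∈ S, s ≠ t := by
        by_contra hcon
        push Not at hcon
        have : #S ≤ 1 := by
          rw [Cardinal.le_one_iff_subsingleton]
          exact ⟨fun x y => Subtype.ext (hcon x.1 x.2 y.1 y.2)⟩
        exact absurd (this.trans Cardinal.one_le_aleph0) (not_le.2 hS)
      obtain ⟨s₀, hs₀, t₀, ht₀, hst₀⟩ := hS2
      have hrfin : r.Finite := by
        rw [← hr s₀ hs₀ t₀ ht₀ hst₀]
        exact (hfin s₀).subset Set.inter_subset_left
      have hra : ∀ i ∈ r, (i : WithTop I) < a := by
        intro i hi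
        rw [← hr s₀ hs₀ t₀ ht₀ hst₀] at hi
        exact hi.1.2
      obtain ⟨b, hba, hb⟩ : ∃ b : I, (b : WithTop I) < a ∧ ∀ i ∈ r, i < b := by
        have hne : (insert b₀ hrfin.toFinset).Nonempty := Finset.insert_nonempty _ _
        have hmem := Finset.max'_mem (insert b₀ hrfin.toFinset) hne
        have hlt : (((insert b₀ hrfin.toFinset).max' hne : I) : WithTop I) < a := by
          rw [Finset.mem_insert] at hmem
          rcases hmem with h | h
          · rw [h]; exact hb₀
          · exact hra _ (hrfin.mem_toFinset.1 h)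
        obtain ⟨c, hca, hc⟩ := hA _ hlt
        refine ⟨c, hca, fun i hi => lt_of_le_of_lt ?_ hc⟩
        exact Finset.le_max' _ _ (Finset.mem_insert_of_mem (hrfin.mem_toFinset.2 hi))
      -- two compatible elements at stage `b`
      have hcomp : ∃ s ∈ S, ∃ t ∈ S, s ≠ t ∧ ∃ q, RS z g (b : WithTop I) q (f s) ∧
          RS z g (b : WithTop I) q (f t) := by
        by_contra hcon
        refine absurd (IH (b : WithTop I) hba S (fun s => f s.1) fun s t hst hq => ?_)
          (not_le.2 hS)
        exact hcon ⟨s.1, s.2, t.1, t.2, fun h => hst (Subtype.ext h), hq⟩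
      obtain ⟨s, hs, t, ht, hst, q, hq1, hq2⟩ := hcomp
      refine hf s t hst ⟨amal b q (f s) (f t), ?_, ?_⟩
      · intro β hβ
        by_cases hlt : β < b
        · have h6 : RS z g (b : WithTop I) (amal b q (f s) (f t)) (f s) := by
            refine hcongr (b : WithTop I) q _ (f s) (f s) (fun γ hγ => ⟨?_, rfl⟩) hq1
            rw [amal_lt _ _ _ _ _ (WithTop.coe_lt_coe.1 hγ)]
          exact h6 β (WithTop.coe_lt_coe.2 hlt)
        · by_cases hz1 : (f s).1 β = z
          · rw [hz1]
            exact stp_top _ _ ((amal b q (f s) (f t)).2.2 β)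
          · rw [amal_left _ _ _ _ _ hlt hz1]
            exact stp_refl _ _ ((f s).2.2 β)
      · intro β hβ
        by_cases hlt : β < b
        · have h6 : RS z g (b : WithTop I) (amal b q (f s) (f t)) (f t) := by
            refine hcongr (b : WithTop I) q _ (f t) (f t) (fun γ hγ => ⟨?_, rfl⟩) hq2
            rw [amal_lt _ _ _ _ _ (WithTop.coe_lt_coe.1 hγ)]
          exact h6 β (WithTop.coe_lt_coe.2 hlt)
        · by_cases hz1 : (f s).1 β = z
          · rw [amal_right _ _ _ _ _ hlt hz1]
            exact stp_refl _ _ ((f t).2.2 β)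
          · have hz2 : (f t).1 β = z := by
              by_contra hz2
              have : β ∈ r := by
                rw [← hr s hs t ht hst]
                exact ⟨⟨hz1, hβ⟩, ⟨hz2, hβ⟩⟩
              exact hlt (hb β this)
            rw [hz2]
            exact stp_top _ _ ((amal b q (f s) (f t)).2.2 β)
    · -- no coordinate below `a`
      push Not at hne
      intro T f hf
      have hsub : Subsingleton T := by
        refine ⟨fun t t' => ?_⟩
        by_contra htt'
        refine hf t t' htt' ⟨f t, ?_, ?_⟩ <;>
        · intro β hβ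
          exact absurd hβ (not_lt.2 (hne β))
      exact (Cardinal.le_one_iff_subsingleton.2 hsub).trans Cardinal.one_le_aleph0

end Pool.Agent.Lib.MP_c5d73d_lc.F.H40
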